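import Pool.Agent.H719R4.FX.Fin4

/-!
# The complexified boundary of an analytically integrable outer billiard is regular

Joint work of project CZ (helper738 and helpers 8, 18, 20, 25, 48, 51, 55, 60, 75, 85, 89, 92, 93,
131, 133, 134, 155, 196, 197, 201, 218, 255, 272, 368, 379, 423, 439, 479, 495, 503, 541, 584, 602,
613, 640, 672, 678, 680, 708, 723, 747, 771, 781, 782, 847, 879, 881, 898, 903, 913, 948, 965, 971,
992) and project FX (helper719 and helpers 6, 7, 16, 18, 55, 56, 64, 70, 85, 92, 134, 143, 154, 187,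
196, 197, 202, 213, 221, 227, 234, 248, 303, 305, 329, 341, 365, 368, 399, 403, 404, 409, 413, 418,
431, 470, 481, 534, 545, 553, 558, 577, 609, 627, 634, 635, 666, 680, 682, 704, 708, 742, 781, 784,
807, 816, 828, 837, 873, 896, 899, 913, 972, 974, 989, 991).
-/

open Complex Set Metric

namespace Pool.Agent.Results.MP_7a9089_an.RegularComplexification

/-- `γ` is a closed plane curve with positive continuous radius of curvature `ρ`, parametrised by
its normal angle: `γ'(s) = ρ(s) i e^{is}`; the outer unit normal at `γ s` is `e^{is}`. -/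
def IsOval (γ : ℝ → ℂ) (ρ : ℝ → ℝ) : Prop :=
  (∀ s, γ (s + 2 * Real.pi) = γ s) ∧ Continuous ρ ∧ (∀ s, 0 < ρ s) ∧
    ∀ s : ℝ, HasDerivAt γ ((ρ s : ℂ) * I * cexp (s * I)) s

/-- the point at signed distance `δ` from `γ s` on the tangent line at `γ s` -/
noncomputable def tangentPoint (γ : ℝ → ℂ) (s δ : ℝ) : ℂ := γ s + δ * (I * cexp (s * I))

/-- `K(x, y)` is a nonconstant real analytic first integral of the outer billiard about `γ` near
`γ`: it is analytic and nonconstant on a connected neighbourhood `U` of `γ`, and for every `s` it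
has the same value at the two points at distance `δ` from `γ s` on the tangent line at `γ s`, which
the reflection in `γ s` exchanges, for all small `δ > 0`. -/
def IsIntegralNear (γ : ℝ → ℂ) (K : ℝ → ℝ → ℝ) (U : Set (ℝ × ℝ)) : Prop :=
  IsOpen U ∧ IsPreconnected U ∧ (∀ s, ((γ s).re, (γ s).im) ∈ U) ∧
    AnalyticOnNhd ℝ (Function.uncurry K) U ∧
    (∀ s : ℝ, ∃ ε > 0, ∀ δ : ℝ, 0 < δ → δ < ε →
      K (tangentPoint γ s δ).re (tangentPoint γ s δ).im
        = K (tangentPoint γ s (-δ)).re (tangentPoint γ s (-δ)).im) ∧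
    ∃ z ∈ U, ∃ w ∈ U, K z.1 z.2 ≠ K w.1 w.2

/-- The pair `(F, G)` on the disc of centre `c` and radius `r` is an analytic continuation of the
boundary: there is a chain of discs, the last of which is this disc and consecutive ones of which
intersect, with pairs `(Z i, W i)` of analytic functions on them that agree on consecutive
intersections, the last of which is `(F, G)` and the first of which is
`(γ (θ t), conj (γ (θ t)))` for real `t` in an interval `(x0, x1)` in the first disc, where the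
change of parameter `θ` is continuous and `γ ∘ θ` is not constant. -/
def IsContinuation (γ : ℝ → ℂ) (c : ℂ) (r : ℝ) (F G : ℂ → ℂ) : Prop :=
  ∃ (k : ℕ) (a : ℕ → ℂ) (d : ℕ → ℝ) (Z W : ℕ → ℂ → ℂ) (θ : ℝ → ℝ) (x0 x1 : ℝ),
    (∀ i, i ≤ k → DifferentiableOn ℂ (Z i) (ball (a i) (d i)) ∧
      DifferentiableOn ℂ (W i) (ball (a i) (d i))) ∧
    (∀ i, i < k → (ball (a i) (d i) ∩ ball (a (i + 1)) (d (i + 1))).Nonempty ∧
      EqOn (Z i) (Z (i + 1)) (ball (a i) (d i) ∩ ball (a (i + 1)) (d (i + 1))) ∧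
      EqOn (W i) (W (i + 1)) (ball (a i) (d i) ∩ ball (a (i + 1)) (d (i + 1)))) ∧
    ContinuousOn θ (Ioo x0 x1) ∧
    (∀ t ∈ Ioo x0 x1, (t : ℂ) ∈ ball (a 0) (d 0) ∧ Z 0 t = γ (θ t) ∧
      W 0 t = (starRingEnd ℂ) (γ (θ t))) ∧
    (∃ s ∈ Ioo x0 x1, ∃ t ∈ Ioo x0 x1, γ (θ s) ≠ γ (θ t)) ∧
    a k = c ∧ d k = r ∧ EqOn (Z k) F (ball c r) ∧ EqOn (W k) G (ball c r)

/-- `z` is a regular place of the complex curve `(F, G)`: up to a change of parameter `h` (possibly
ramified, if the parametrisation `(F, G)` is) the curve is immersed and has no inflection at `z`. -/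
def IsRegularPlace (F G : ℂ → ℂ) (z : ℂ) : Prop :=
  ∃ h F₁ G₁ : ℂ → ℂ, AnalyticAt ℂ h z ∧ h z = 0 ∧ AnalyticAt ℂ F₁ 0 ∧ AnalyticAt ℂ G₁ 0 ∧
    (∀ᶠ t in nhds z, F t = F₁ (h t)) ∧ (∀ᶠ t in nhds z, G t = G₁ (h t)) ∧
    deriv F₁ 0 * deriv (deriv G₁) 0 - deriv (deriv F₁) 0 * deriv G₁ 0 ≠ 0

lemma tangentPoint_re (γ : ℝ → ℂ) (s δ : ℝ) :
    (tangentPoint γ s δ).re = (γ s).re - δ * Real.sin s := by
  simp [tangentPoint, Complex.exp_ofReal_mul_I_re, Complex.exp_ofReal_mul_I_im]
  ring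

lemma tangentPoint_im (γ : ℝ → ℂ) (s δ : ℝ) :
    (tangentPoint γ s δ).im = (γ s).im + δ * Real.cos s := by
  simp [tangentPoint, Complex.exp_ofReal_mul_I_re, Complex.exp_ofReal_mul_I_im]

lemma oInt {γ : ℝ → ℂ} {K : ℝ → ℝ → ℝ} {U : Set (ℝ × ℝ)} (h : IsIntegralNear γ K U) :
    H719FX.OInt γ K U := by
  obtain ⟨h1, h2, h3, h4, h5, z, hz, w, hw, hne⟩ := h
  refine ⟨h1, h2, h3, h4, fun s => ?_, ?_⟩
  · obtain ⟨ε, hε, h⟩ := h5 s
    refine ⟨ε, hε, fun δ hδ hδ' => ?_⟩
    have := h δ hδ hδ'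
    simpa [tangentPoint_re, tangentPoint_im, sub_eq_add_neg] using this
  · rintro ⟨c, hc⟩
    exact hne ((hc z hz).trans (hc w hw).symm)

/-- If the outer billiard about the oval `γ` has a nonconstant real analytic first integral near
`γ`, then for every analytic continuation `(F, G)` of the boundary curve (in the coordinates
`z`, `conj z` of the complexified plane) every point is a regular place: the complexified boundary
has no singular branches and no inflection points at finite distance. -/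
theorem result : ∀ (γ : ℝ → ℂ) (ρ : ℝ → ℝ), IsOval γ ρ → ∀ (K : ℝ → ℝ → ℝ) (U : Set (ℝ × ℝ)),
    IsIntegralNear γ K U →
    ∀ (c : ℂ) (r : ℝ) (F G : ℂ → ℂ), IsContinuation γ c r F G → ∀ z ∈ ball c r,
      IsRegularPlace F G z := by
  rintro γ ρ ⟨h1, h2, h3, h4⟩ K U hK c r F G
    ⟨k, a, d, Z, W, θ, x0, x1, hd, hi, hθ, hZW, hnc, rfl, rfl, hF, hG⟩ z hz
  have hb : ball (a k) (d k) ∈ nhds z := isOpen_ball.mem_nhds hz
  obtain ⟨-, h, F₁, G₁, b1, b2, b3, b4, b5, b6, b7⟩ :=
    H719FX.fin_ofo γ ρ ⟨h1, h2, h3, h4⟩ K U (oInt hK) k a d Z W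
    ⟨fun i hi' => (hd i hi').1, fun i hi' => (hd i hi').2, fun i hi' => (hi i hi').1,
      fun i hi' => (hi i hi').2.1, fun i hi' => (hi i hi').2.2⟩ θ x0 x1 hθ hZW hnc z hz
  refine ⟨h, F₁, G₁, b1, b2, b3, b4, ?_, ?_, b7⟩
  · filter_upwards [hb, b5] with t ht ht' using (hF ht).symm.trans ht'
  · filter_upwards [hb, b6] with t ht ht' using (hG ht).symm.trans ht'

end Pool.Agent.Results.MP_7a9089_an.RegularComplexification
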