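import Pool.Agent.H719R4.FX.Fin4

/-!
# Outer billiards about trigonometric polynomial ovals

Joint work of project CZ (helper738 and helpers 8, 18, 20, 25, 48, 51, 55, 60, 75, 85, 89, 92, 93,
131, 133, 134, 155, 196, 197, 201, 218, 255, 272, 368, 379, 423, 439, 479, 495, 503, 541, 584, 602,
613, 640, 672, 678, 680, 708, 723, 747, 771, 781, 782, 847, 879, 881, 898, 903, 913, 948, 965, 971,
992) and project FX (helper719 and helpers 6, 7, 16, 18, 55, 56, 64, 70, 85, 92, 134, 143, 154, 187,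
196, 197, 202, 213, 221, 227, 234, 248, 303, 305, 329, 339, 341, 365, 368, 399, 401, 403, 404, 409,
413, 418, 431, 470, 477, 481, 528, 534, 545, 553, 558, 577, 609, 627, 634, 635, 666, 680, 682, 704,
708, 742, 781, 784, 804, 807, 816, 828, 837, 873, 896, 899, 913, 972, 974, 989, 991).
-/

open Complex Set

namespace Pool.Agent.Results.MP_7a9089_an.TrigonometricOvals

/-- `γ` is a closed plane curve with positive continuous radius of curvature `ρ`, parametrised by
its normal angle: `γ'(s) = ρ(s) i e^{is}`; the outer unit normal at `γ s` is `e^{is}`. -/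
def IsOval (γ : ℝ → ℂ) (ρ : ℝ → ℝ) : Prop :=
  (∀ s, γ (s + 2 * Real.pi) = γ s) ∧ Continuous ρ ∧ (∀ s, 0 < ρ s) ∧
    ∀ s : ℝ, HasDerivAt γ ((ρ s : ℂ) * I * cexp (s * I)) s

/-- the point at signed distance `δ` from `γ s` on the tangent line at `γ s` -/
noncomputable def tangentPoint (γ : ℝ → ℂ) (s δ : ℝ) : ℂ := γ s + δ * (I * cexp (s * I))

/-- `K(x, y)` is a nonconstant real analytic first integral of the outer billiard about `γ` near
`γ`: it is analytic and nonconstant on a connected neighbourhood `U` of `γ`, and for every `s` it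
has the same value at the two points at distance `δ` from `γ s` on the tangent line at `γ s`, which
the reflection in `γ s` exchanges, for all small `δ > 0`. -/
def IsIntegralNear (γ : ℝ → ℂ) (K : ℝ → ℝ → ℝ) (U : Set (ℝ × ℝ)) : Prop :=
  IsOpen U ∧ IsPreconnected U ∧ (∀ s, ((γ s).re, (γ s).im) ∈ U) ∧
    AnalyticOnNhd ℝ (Function.uncurry K) U ∧
    (∀ s : ℝ, ∃ ε > 0, ∀ δ : ℝ, 0 < δ → δ < ε →
      K (tangentPoint γ s δ).re (tangentPoint γ s δ).im
        = K (tangentPoint γ s (-δ)).re (tangentPoint γ s (-δ)).im) ∧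
    ∃ z ∈ U, ∃ w ∈ U, K z.1 z.2 ≠ K w.1 w.2

/-- The curve `γ`, in some continuous parametrisation, is a trigonometric polynomial: there are a
continuous surjective change of parameter `θ`, a degree `N` and complex coefficients `c k` with
`γ (θ t) = ∑_{|k| ≤ N} c k e^{ikt}` for all `t`. -/
def IsTrigonometric (γ : ℝ → ℂ) : Prop :=
  ∃ (N : ℕ) (c : ℤ → ℂ) (θ : ℝ → ℝ), Continuous θ ∧ Function.Surjective θ ∧
    ∀ t : ℝ, γ (θ t) = ∑ k ∈ Finset.Icc (-(N : ℤ)) N, c k * cexp (k * t * I)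

/-- the range of `γ` is an ellipse: the set of the points `(x, y)` with
`a (x - u)² + 2 b (x - u) (y - v) + d (y - v)² = 1`, the quadratic form being positive definite -/
def IsEllipse (γ : ℝ → ℂ) : Prop :=
  ∃ (c : ℂ) (a b d : ℝ), 0 < a ∧ 0 < a * d - b ^ 2 ∧
    Set.range γ = {x : ℂ | a * (x.re - c.re) ^ 2 + 2 * b * (x.re - c.re) * (x.im - c.im)
      + d * (x.im - c.im) ^ 2 = 1}

lemma tangentPoint_re (γ : ℝ → ℂ) (s δ : ℝ) :
    (tangentPoint γ s δ).re = (γ s).re - δ * Real.sin s := by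
  simp [tangentPoint, Complex.exp_ofReal_mul_I_re, Complex.exp_ofReal_mul_I_im]
  ring

lemma tangentPoint_im (γ : ℝ → ℂ) (s δ : ℝ) :
    (tangentPoint γ s δ).im = (γ s).im + δ * Real.cos s := by
  simp [tangentPoint, Complex.exp_ofReal_mul_I_re, Complex.exp_ofReal_mul_I_im]

lemma oInt {γ : ℝ → ℂ} {K : ℝ → ℝ → ℝ} {U : Set (ℝ × ℝ)} (h : IsIntegralNear γ K U) :
    H719FX.OInt γ K U := by
  obtain ⟨h1, h2, h3, h4, h5, z, hz, w, hw, hne⟩ := h
  refine ⟨h1, h2, h3, h4, fun s => ?_, ?_⟩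
  · obtain ⟨ε, hε, h⟩ := h5 s
    refine ⟨ε, hε, fun δ hδ hδ' => ?_⟩
    have := h δ hδ hδ'
    simpa [tangentPoint_re, tangentPoint_im, sub_eq_add_neg] using this
  · rintro ⟨c, hc⟩
    exact hne ((hc z hz).trans (hc w hw).symm)

/-- If the oval `γ` has a trigonometric polynomial parametrisation and the outer billiard about `γ`
has a nonconstant real analytic first integral near `γ`, then `γ` is an ellipse. -/
theorem result : ∀ (γ : ℝ → ℂ) (ρ : ℝ → ℝ), IsOval γ ρ → IsTrigonometric γ →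
    ∀ (K : ℝ → ℝ → ℝ) (U : Set (ℝ × ℝ)), IsIntegralNear γ K U → IsEllipse γ := by
  rintro γ ρ ⟨h1, h2, h3, h4⟩ ⟨N, c, θ, hθ, hs, hc⟩ K U hK
  exact H719FX.fin_otx γ ρ ⟨h1, h2, h3, h4⟩ K U (oInt hK) N c θ hθ hs hc

end Pool.Agent.Results.MP_7a9089_an.TrigonometricOvals
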